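import Mathlib
import Pool.Agent.H50.Art1

namespace Pool.Agent.Results.MP_9eb66c_ag.Nonconvex

open MvPolynomial Pool.Agent.H50.Art

/-- The Artin cone `A^r_{n,2d}`: forms `p` of degree `2d` in `n` real variables such that `p * q` is
a sum of squares for some nonzero sum of squares form `q` of degree `2r`. -/
def A (n d r : ℕ) : Set (MvPolynomial (Fin n) ℝ) :=
  {p | p.IsHomogeneous (2 * d) ∧
    ∃ q : MvPolynomial (Fin n) ℝ, q ≠ 0 ∧ q.IsHomogeneous (2 * r) ∧ IsSumSq q ∧ IsSumSq (p * q)}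

lemma map_sq {R S : Type} [CommRing R] [CommRing S] (f : R →+* S) {a : R} (h : IsSumSq a) :
    IsSumSq (f a) := by
  induction h with
  | zero => simp
  | sq_add a _ ih => rw [map_add, map_mul]; exact .sq_add _ ih

lemma memA (i j k : Fin 6) (c : ℕ) : (c : MvPolynomial (Fin 6) ℝ) * M (X i) (X j) (X k) ∈ A 6 3 1 := by
  have hx := fun i : Fin 6 => isHomogeneous_X ℝ i
  refine ⟨?_, X i * X i + (X j * X j + (X k * X k + 0)), fun h => ?_, ?_,
    .sq_add _ (.sq_add _ (.sq_add _ .zero)), ?_⟩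
  · have h3 : (3 : MvPolynomial (Fin 6) ℝ).IsHomogeneous 0 := isHomogeneous_C (Fin 6) (3 : ℝ)
    have hc : (c : MvPolynomial (Fin 6) ℝ).IsHomogeneous 0 := isHomogeneous_C (Fin 6) (c : ℝ)
    exact hc.mul ((((((hx i).pow 4).mul ((hx j).pow 2)).add (((hx i).pow 2).mul ((hx j).pow 4))).add
      ((hx k).pow 6)).sub (((h3.mul ((hx i).pow 2)).mul ((hx j).pow 2)).mul ((hx k).pow 2)))
  · have := congrArg (eval fun _ => (1 : ℝ)) h
    norm_num at this
  · exact ((hx i).mul (hx i)).add (((hx j).mul (hx j)).add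
      (((hx k).mul (hx k)).add (isHomogeneous_zero _ _ _)))
  · obtain ⟨t, ht⟩ : ∃ t : MvPolynomial (Fin 6) ℝ, 2 * t = 1 :=
      ⟨C (1 / 2), by rw [← map_ofNat C 2, ← map_mul]; norm_num⟩
    generalize (X i : MvPolynomial (Fin 6) ℝ) = x
    generalize (X j : MvPolynomial (Fin 6) ℝ) = y
    generalize (X k : MvPolynomial (Fin 6) ℝ) = z
    have h : IsSumSq (M x y z * (x * x + (y * y + (z * z + 0)))) := by
      have e : M x y z * (x * x + (y * y + (z * z + 0))) =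
          (x ^ 2 * y * z - y * z ^ 3) * (x ^ 2 * y * z - y * z ^ 3) +
          ((x * y ^ 2 * z - x * z ^ 3) * (x * y ^ 2 * z - x * z ^ 3) +
          ((x ^ 2 * y ^ 2 - z ^ 4) * (x ^ 2 * y ^ 2 - z ^ 4) +
          (t * (x * y ^ 3 - x ^ 3 * y) * (t * (x * y ^ 3 - x ^ 3 * y)) +
          (t * (x * y ^ 3 + x ^ 3 * y - 2 * x * y * z ^ 2) *
            (t * (x * y ^ 3 + x ^ 3 * y - 2 * x * y * z ^ 2)) +
          (t * (x * y ^ 3 + x ^ 3 * y - 2 * x * y * z ^ 2) *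
            (t * (x * y ^ 3 + x ^ 3 * y - 2 * x * y * z ^ 2)) +
          (t * (x * y ^ 3 + x ^ 3 * y - 2 * x * y * z ^ 2) *
            (t * (x * y ^ 3 + x ^ 3 * y - 2 * x * y * z ^ 2)) + 0)))))) := by
        unfold M
        have h4 : t * t * 4 = 1 := by linear_combination (2 * t + 1) * ht
        linear_combination -(
          (x ^ 2 * y ^ 6 + x ^ 6 * y ^ 2 + x ^ 4 * y ^ 4 + 3 * x ^ 2 * y ^ 2 * z ^ 4 -
            3 * x ^ 2 * y ^ 4 * z ^ 2 - 3 * x ^ 4 * y ^ 2 * z ^ 2) * h4)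
      rw [e]
      exact .sq_add _ (.sq_add _ (.sq_add _ (.sq_add _ (.sq_add _ (.sq_add _ (.sq_add _ .zero))))))
    rw [mul_assoc]
    induction c with
    | zero => simp
    | succ c ih => rw [Nat.cast_succ, add_mul, one_mul]; exact ih.add h

lemma notA : M (X 0) (X 1) (X 2) + M (X 3) (X 4) (X 5) ∉ A 6 3 1 := by
  rintro ⟨-, q, hq0, hq, hs, hp⟩
  have h0 : ∀ v, 0 ≤ eval v q := fun v => (map_sq (eval v) hs).nonneg
  have main : ∀ g : Fin 6 → MvPolynomial (Fin 3) ℝ,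
      M (g 0) (g 1) (g 2) + M (g 3) (g 4) (g 5) = M (X 0) (X 1) (X 2) →
      eval (fun i => constantCoeff (g i)) q = 0 := fun g hg => by
    have h1 := map_sq (aeval g : MvPolynomial (Fin 6) ℝ →ₐ[ℝ] _).toRingHom hp
    have h2 : (aeval g : MvPolynomial (Fin 6) ℝ →ₐ[ℝ] _).toRingHom
        (M (X 0) (X 1) (X 2) + M (X 3) (X 4) (X 5)) = M (X 0) (X 1) (X 2) := by
      rw [← hg]; simp [M, map_ofNat]
    rw [map_mul, h2] at h1
    have h3 : ∀ p : MvPolynomial (Fin 6) ℝ, constantCoeff (aeval g p) =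
        eval (fun i => constantCoeff (g i)) p := fun p => by
      induction p using MvPolynomial.induction_on <;> simp_all
    exact le_antisymm (h3 q ▸ key _ h1) (h0 _)
  have z : ∀ a b c : ℝ, M a b c = 0 →
      eval ![0, 0, 0, a, b, c] q = 0 ∧ eval ![a, b, c, 0, 0, 0] q = 0 := fun a b c h => by
    have hC : M (C a) (C b) (C c : MvPolynomial (Fin 3) ℝ) = 0 := by
      have := congrArg (C : ℝ →+* MvPolynomial (Fin 3) ℝ) h
      simpa [M, map_ofNat] using this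
    have m1 := main ![X 0, X 1, X 2, C a, C b, C c] (by simp [hC])
    have m2 := main ![C a, C b, C c, X 0, X 1, X 2] (by simp [hC])
    refine ⟨(congrArg (eval · q) ?_).trans m1, (congrArg (eval · q) ?_).trans m2⟩ <;>
      · ext i; fin_cases i <;> simp
  obtain ⟨a1, b1⟩ := z 1 0 0 (by simp [M])
  obtain ⟨a2, b2⟩ := z 0 1 0 (by simp [M])
  obtain ⟨a3, b3⟩ := z 1 1 1 (by norm_num [M])
  refine hq0 (MvPolynomial.funext fun v => ?_)
  have hv : v = ![0, 0, 0, 1, 0, 0] + (v 3 - v 5 - 1) • ![0, 0, 0, 1, 0, 0] +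
      (v 4 - v 5) • ![0, 0, 0, 0, 1, 0] + v 5 • ![0, 0, 0, 1, 1, 1] +
      (v 0 - v 2) • ![1, 0, 0, 0, 0, 0] + (v 1 - v 2) • ![0, 1, 0, 0, 0, 0] +
      v 2 • ![1, 1, 1, 0, 0, 0] := by
    ext i; fin_cases i <;> simp
  rw [hv, shift hq h0 b3, shift hq h0 b2, shift hq h0 b1, shift hq h0 a3, shift hq h0 a2,
    shift hq h0 a1, map_zero, a1]

theorem result :
    (∃ p₁ ∈ A 6 3 1, ∃ p₂ ∈ A 6 3 1, p₁ + p₂ ∉ A 6 3 1) ∧ ¬ Convex ℝ (A 6 3 1) := by
  refine ⟨⟨_, by simpa using memA 0 1 2 1, _, by simpa using memA 3 4 5 1, notA⟩, fun h => notA ?_⟩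
  have := h (memA 0 1 2 2) (memA 3 4 5 2) (a := 1 / 2) (b := 1 / 2) (by norm_num) (by norm_num)
    (by norm_num)
  have e : ∀ p : MvPolynomial (Fin 6) ℝ, (1 / 2 : ℝ) • (((2 : ℕ) : MvPolynomial (Fin 6) ℝ) * p) = p :=
    fun p => by rw [Nat.cast_ofNat, two_mul, smul_add, ← add_smul]; norm_num
  rwa [e, e] at this

end Pool.Agent.Results.MP_9eb66c_ag.Nonconvex
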